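import Mathlib

set_option autoImplicit false

namespace Pool.Agent.H750Z.SF

open Metric Set

variable {X : Type*} [NormedAddCommGroup X] [NormedSpace ℝ X]

/-- a star-finite covering by closed balls -/
structure Cover (𝒞 : Set (Set X)) : Prop where
  ball : ∀ B ∈ 𝒞, ∃ c : X, ∃ r : ℝ, 0 < r ∧ B = closedBall c r
  cover : ∀ x : X, ∃ B ∈ 𝒞, x ∈ B
  star : ∀ B ∈ 𝒞, {B' ∈ 𝒞 | (B ∩ B').Nonempty}.Finite

/-- members meeting a member of `𝓗` -/
def nb (𝒞 𝓗 : Set (Set X)) : Set (Set X) := {B ∈ 𝒞 | ∃ D ∈ 𝓗, (D ∩ B).Nonempty}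

/-- singular points -/
def sing (𝒞 : Set (Set X)) : Set X := {x | ∀ ε > 0, {B ∈ 𝒞 | (B ∩ ball x ε).Nonempty}.Infinite}

variable {𝒞 : Set (Set X)}

omit [NormedSpace ℝ X] in
theorem nb_sub (𝓗 : Set (Set X)) : nb 𝒞 𝓗 ⊆ 𝒞 := fun _ h => h.1

omit [NormedSpace ℝ X] in
theorem Cover.nb_finite (h : Cover 𝒞) {𝓗 : Set (Set X)} (h1 : 𝓗.Finite) (h2 : 𝓗 ⊆ 𝒞) :
    (nb 𝒞 𝓗).Finite := by
  refine (h1.biUnion fun D hD => h.star D (h2 hD)).subset ?_
  rintro B ⟨hB, D, hD, h3⟩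
  exact mem_biUnion hD ⟨hB, h3⟩

omit [NormedSpace ℝ X] in
theorem Cover.closed (h : Cover 𝒞) {B : Set X} (hB : B ∈ 𝒞) : IsClosed B := by
  obtain ⟨c, r, _, rfl⟩ := h.ball B hB
  exact isClosed_closedBall

omit [NormedSpace ℝ X] in
theorem Cover.sub_nb (h : Cover 𝒞) {𝓗 : Set (Set X)} (h2 : 𝓗 ⊆ 𝒞) : 𝓗 ⊆ nb 𝒞 𝓗 := by
  intro B hB
  obtain ⟨c, r, hr, rfl⟩ := h.ball B (h2 hB)
  exact ⟨h2 hB, _, hB, c, mem_closedBall_self hr.le, mem_closedBall_self hr.le⟩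

omit [NormedSpace ℝ X] in
theorem Cover.closed_sUnion (h : Cover 𝒞) {𝓗 : Set (Set X)} (h1 : 𝓗.Finite) (h2 : 𝓗 ⊆ 𝒞) :
    IsClosed (⋃₀ 𝓗) := by
  rw [sUnion_eq_biUnion]
  exact h1.isClosed_biUnion fun D hD => h.closed (h2 hD)

omit [NormedSpace ℝ X] in
theorem sing_closed : IsClosed (sing 𝒞) := by
  refine isClosed_of_closure_subset fun x hx ε hε => ?_
  obtain ⟨y, hy, hxy⟩ := Metric.mem_closure_iff.1 hx (ε / 2) (by positivity)
  refine (hy (ε / 2) (by positivity)).mono ?_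
  rintro B ⟨hB, z, hz1, hz2⟩
  refine ⟨hB, z, hz1, ?_⟩
  rw [mem_ball] at hz2 ⊢
  have := dist_triangle z y x
  rw [dist_comm] at hxy
  linarith

omit [NormedSpace ℝ X] in
theorem Cover.sing_bd (h : Cover 𝒞) {x c : X} {r : ℝ} (hx : x ∈ sing 𝒞)
    (hB : closedBall c r ∈ 𝒞) (hxB : x ∈ closedBall c r) : ‖c - x‖ = r := by
  rw [mem_closedBall, dist_comm, dist_eq_norm] at hxB
  by_contra hne
  have hlt : 0 < r - ‖c - x‖ := sub_pos.2 (lt_of_le_of_ne hxB hne)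
  refine hx _ hlt ((h.star _ hB).subset ?_)
  rintro B ⟨hB', z, hz1, hz2⟩
  refine ⟨hB', z, ?_, hz1⟩
  rw [mem_ball] at hz2
  rw [mem_closedBall]
  have := dist_triangle z x c
  rw [dist_comm x c, dist_eq_norm c x] at this
  linarith

omit [NormedSpace ℝ X] in
theorem Cover.sing_of (h : Cover 𝒞) {z : X}
    (hz : ∀ ε > 0, ∃ y ∈ Metric.ball z ε, ∀ D ∈ 𝒞, z ∈ D → y ∉ D) : z ∈ sing 𝒞 := by
  intro ε hε hfin
  have hc : IsClosed (⋃₀ {D ∈ {B ∈ 𝒞 | (B ∩ Metric.ball z ε).Nonempty} | z ∉ D}) :=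
    h.closed_sUnion (hfin.subset fun D hD => hD.1) fun D hD => hD.1.1
  have hz' : z ∈ (⋃₀ {D ∈ {B ∈ 𝒞 | (B ∩ Metric.ball z ε).Nonempty} | z ∉ D})ᶜ := by
    rintro ⟨D, hD, h1⟩
    exact hD.2 h1
  obtain ⟨η, hη, h1⟩ := Metric.isOpen_iff.1 hc.isOpen_compl z hz'
  obtain ⟨y, hy, h2⟩ := hz (min ε η) (lt_min hε hη)
  obtain ⟨B, hB, hyB⟩ := h.cover y
  exact h1 (ball_subset_ball (min_le_right _ _) hy) ⟨B, ⟨⟨hB, y, hyB,
    ball_subset_ball (min_le_left _ _) hy⟩, fun h3 => h2 B hB h3 hyB⟩, hyB⟩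

omit [NormedSpace ℝ X] in
theorem Cover.exists_minimal (h : Cover 𝒞) :
    ∃ 𝒞' : Set (Set X), Cover 𝒞' ∧ ∀ B ∈ 𝒞', ∃ y ∈ B, ∀ D ∈ 𝒞', y ∈ D → D = B := by
  obtain ⟨m, hm1, hm2⟩ := zorn_superset_nonempty {𝓗 | 𝓗 ⊆ 𝒞 ∧ ∀ x, ∃ B ∈ 𝓗, x ∈ B} (by
    intro c hc hchain hne
    refine ⟨⋂₀ c, ⟨?_, fun x => ?_⟩, fun s hs => sInter_subset_of_mem hs⟩
    · obtain ⟨s, hs⟩ := hne
      exact (sInter_subset_of_mem hs).trans (hc hs).1
    · by_contra hcon
      push Not at hcon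
      obtain ⟨B0, hB0, hx0⟩ := h.cover x
      have hfin : {B ∈ 𝒞 | x ∈ B}.Finite := (h.star B0 hB0).subset fun B hB => ⟨hB.1, x, hx0, hB.2⟩
      have h1 : ∀ T : Set (Set X), T.Finite → (∀ B ∈ T, x ∈ B) → ∃ s ∈ c, ∀ B ∈ T, B ∉ s := by
        intro T hT
        induction T, hT using Set.Finite.induction_on with
        | empty => obtain ⟨s, hs⟩ := hne; exact fun _ => ⟨s, hs, by simp⟩
        | @insert B T _ _ ih =>
          intro h2
          obtain ⟨s, hs, h3⟩ := ih fun D hD => h2 D (mem_insert_of_mem _ hD)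
          obtain ⟨t, ht, h4⟩ : ∃ t ∈ c, B ∉ t := by
            by_contra h5
            push Not at h5
            exact hcon B h5 (h2 B (mem_insert _ _))
          rcases hchain.total hs ht with h5 | h5
          · refine ⟨s, hs, ?_⟩
            rintro D (rfl | hD)
            · exact fun h6 => h4 (h5 h6)
            · exact h3 D hD
          · refine ⟨t, ht, ?_⟩
            rintro D (rfl | hD)
            · exact h4
            · exact fun h6 => h3 D hD (h5 h6)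
      obtain ⟨s, hs, h2⟩ := h1 _ hfin fun B hB => hB.2
      obtain ⟨B, hB, hxB⟩ := (hc hs).2 x
      exact h2 B ⟨(hc hs).1 hB, hxB⟩ hB) 𝒞 ⟨subset_rfl, h.cover⟩
  refine ⟨m, ⟨fun B hB => h.ball B (hm1 hB), hm2.prop.2, fun B hB =>
    (h.star B (hm1 hB)).subset fun D hD => ⟨hm1 hD.1, hD.2⟩⟩, fun B hB => ?_⟩
  by_contra hcon
  push Not at hcon
  have h1 : m \ {B} ∈ {𝓗 | 𝓗 ⊆ 𝒞 ∧ ∀ x, ∃ B ∈ 𝓗, x ∈ B} := by
    refine ⟨diff_subset.trans hm1, fun x => ?_⟩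
    obtain ⟨D, hD, hx⟩ := hm2.prop.2 x
    by_cases h2 : D = B
    · subst h2
      obtain ⟨E, hE, h3, h4⟩ := hcon x hx
      exact ⟨E, ⟨hE, h4⟩, h3⟩
    · exact ⟨D, ⟨hD, h2⟩, hx⟩
  exact (hm2.le_of_le h1 diff_subset hB).2 rfl

theorem Cover.exists_sing (h : Cover 𝒞) (hX : ¬ FiniteDimensional ℝ X) {B : Set X} (hB : B ∈ 𝒞)
    {y : X} (hy : y ∈ B) (hy' : ∀ D ∈ 𝒞, y ∈ D → D = B) : ∃ z ∈ B, z ∈ sing 𝒞 := by
  have hfin : ({D ∈ 𝒞 | (B ∩ D).Nonempty} \ {B}).Finite := (h.star B hB).diff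
  have hsep : ∀ D : ↥({D ∈ 𝒞 | (B ∩ D).Nonempty} \ {B}), ∃ (f : StrongDual ℝ X) (u : ℝ),
      f y < u ∧ ∀ b ∈ D.1, u < f b := by
    rintro ⟨D, hD, hne⟩
    refine geometric_hahn_banach_point_closed ?_ (h.closed hD.1) fun h1 => hne (hy' D hD.1 h1)
    obtain ⟨c, r, _, rfl⟩ := h.ball D hD.1
    exact convex_closedBall c r
  choose f u hf hu using hsep
  haveI := hfin.to_subtype
  obtain ⟨v, hv0, hv⟩ : ∃ v : X, v ≠ 0 ∧ ∀ D, f D v = 0 := by
    by_contra hcon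
    push Not at hcon
    refine hX (FiniteDimensional.of_injective (LinearMap.pi fun D => (f D : X →ₗ[ℝ] ℝ)) ?_)
    rw [injective_iff_map_eq_zero]
    intro v hv
    by_contra h0
    obtain ⟨D, hD⟩ := hcon v h0
    exact hD (congrFun hv D)
  have hvn : 0 < ‖v‖ := norm_pos_iff.2 hv0
  have hT : IsClosed {t : ℝ | y + t • v ∈ B} := (h.closed hB).preimage (by fun_prop)
  have hTb : BddAbove {t : ℝ | y + t • v ∈ B} := by
    obtain ⟨c, r, hr, rfl⟩ := h.ball B hB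
    refine ⟨2 * r / ‖v‖, fun t ht => ?_⟩
    rw [le_div_iff₀ hvn]
    have h1 : ‖t • v‖ ≤ 2 * r := by
      have h2 := dist_triangle_right (y + t • v) y c
      rw [mem_setOf_eq, mem_closedBall] at ht
      rw [mem_closedBall] at hy
      rw [dist_eq_norm, add_sub_cancel_left] at h2
      linarith
    rw [norm_smul] at h1
    exact (mul_le_mul_of_nonneg_right (le_abs_self t) hvn.le).trans h1
  have hmem := hT.csSup_mem ⟨0, by simpa using hy⟩ hTb
  set t0 := sSup {t : ℝ | y + t • v ∈ B}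
  refine ⟨y + t0 • v, hmem, h.sing_of fun ε hε => ⟨y + (t0 + ε / (2 * ‖v‖)) • v, ?_, ?_⟩⟩
  · rw [mem_ball, dist_eq_norm, add_smul, ← add_assoc, add_sub_cancel_left, norm_smul,
      Real.norm_of_nonneg (by positivity)]
    have : ε / (2 * ‖v‖) * ‖v‖ = ε / 2 := by field_simp
    linarith
  · intro D hD hz hy2
    by_cases hDB : D = B
    · subst hDB
      have h1 : t0 + ε / (2 * ‖v‖) ≤ t0 := le_csSup hTb hy2
      have : 0 < ε / (2 * ‖v‖) := by positivity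
      linarith
    · have h1 := hu ⟨D, ⟨hD, _, hmem, hz⟩, hDB⟩ _ hz
      have h2 := hf ⟨D, ⟨hD, _, hmem, hz⟩, hDB⟩
      rw [map_add, map_smul, hv, smul_zero, add_zero] at h1
      linarith

/-- the norm is not 2-rough at `a` -/
def NonRough (a : X) : Prop :=
  ∃ θ δ : ℝ, θ < 1 ∧ 0 < δ ∧ ∀ h : X, ‖h‖ ≤ δ → ‖a + h‖ + ‖a - h‖ ≤ 2 * ‖a‖ + 2 * θ * ‖h‖

theorem Cover.final (h : Cover 𝒞) (hmin : ∀ B ∈ 𝒞, ∃ z ∈ B, z ∈ sing 𝒞) {x0 c1 : X} {R r1 : ℝ}
    (hx0 : x0 ∈ sing 𝒞) (hR : 0 < R) {𝓕 : Set (Set X)} (hF : 𝓕.Finite) (hF' : 𝓕 ⊆ 𝒞)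
    (hS : sing 𝒞 ∩ Metric.ball x0 R ⊆ ⋃₀ 𝓕) (hr1 : 0 < r1) (hB1 : closedBall c1 r1 ∈ 𝓕)
    (hx1 : x0 ∈ closedBall c1 r1) (hQ : NonRough (c1 - x0)) : False := by
  obtain ⟨θ0, δ0, hθ0, hδ0, hQ⟩ := hQ
  set θ := max θ0 0 with hθdef
  have hθ : θ < 1 := max_lt hθ0 one_pos
  have hθ' : 0 ≤ θ := le_max_right _ _
  set a := c1 - x0 with ha
  have han : ‖a‖ = r1 := h.sing_bd hx0 (hF' hB1) hx1
  have hG := h.nb_finite hF hF'
  have hbig : ∀ c r, closedBall c r ∈ 𝒞 → closedBall c r ∉ nb 𝒞 𝓕 →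
      ∀ y ∈ closedBall c r, ‖y - x0‖ < R / 2 → R / 4 ≤ r := by
    intro c r h1 h2 y hy hy'
    by_contra hcon
    push Not at hcon
    obtain ⟨z, hz1, hz2⟩ := hmin _ h1
    obtain ⟨D, hD, hzD⟩ := hS ⟨hz2, (show z ∈ Metric.ball x0 R by
      rw [mem_ball]
      rw [mem_closedBall] at hy hz1
      have h3 := dist_triangle z y x0
      have h4 := dist_triangle_right z y c
      rw [dist_eq_norm y x0] at h3
      linarith)⟩
    exact h2 ⟨h1, D, hD, z, hzD, hz1⟩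
  set δ := min δ0 (R / 4) with hδdef
  have hδ : 0 < δ := lt_min hδ0 (by positivity)
  have hδ1 : δ ≤ δ0 := min_le_left _ _
  have hδ2 : δ ≤ R / 4 := min_le_right _ _
  have hκ : 0 < (1 - θ) * δ := mul_pos (by linarith) hδ
  have hκ' : (1 - θ) * δ ≤ δ := by nlinarith
  set s := min ((1 - θ) * δ / 4) (r1 / 2) with hsdef
  have hs : 0 < s := lt_min (by positivity) (by positivity)
  have hs1 : s ≤ (1 - θ) * δ / 4 := min_le_left _ _
  have hs2 : s ≤ r1 / 2 := min_le_right _ _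
  set ε := min s ((1 - θ) * δ * s / r1) with hεdef
  have hε : 0 < ε := lt_min hs (by positivity)
  have hε1 : ε ≤ s := min_le_left _ _
  have hε2 : r1 * ε ≤ (1 - θ) * δ * s := by
    have : ε ≤ (1 - θ) * δ * s / r1 := min_le_right _ _
    rw [le_div_iff₀ hr1] at this
    linarith
  have hG1 := h.nb_finite hG (nb_sub _)
  have hG2 := h.nb_finite hG1 (nb_sub _)
  obtain ⟨W, ⟨hW, y1, hy1, hy1'⟩, hWG⟩ := (hx0 ε hε).exists_notMem_finite hG2
  obtain ⟨c, r, hr, rfl⟩ := h.ball W hW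
  rw [mem_ball, dist_eq_norm] at hy1'
  have hrbig : R / 4 ≤ r := hbig c r hW
    (fun h1 => hWG (h.sub_nb (nb_sub _) (h.sub_nb (nb_sub _) h1))) y1 hy1 (by linarith)
  have hsr : s ≤ r := by linarith
  set p := y1 - (s / r) • (y1 - c) with hp
  have hy1c : ‖y1 - c‖ ≤ r := by rwa [mem_closedBall, dist_eq_norm] at hy1
  have hsr0 : 0 ≤ s / r := by positivity
  have hsr1 : s / r ≤ 1 := (div_le_one hr).2 hsr
  have hpc : ‖p - c‖ ≤ r - s := by
    have : p - c = (1 - s / r) • (y1 - c) := by rw [hp, sub_smul, one_smul]; abel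
    rw [this, norm_smul, Real.norm_of_nonneg (by linarith)]
    calc (1 - s / r) * ‖y1 - c‖ ≤ (1 - s / r) * r :=
          mul_le_mul_of_nonneg_left hy1c (by linarith)
      _ = r - s := by field_simp
  have hpx : ‖p - x0‖ ≤ s + ε := by
    have h1 : p - x0 = (y1 - x0) - (s / r) • (y1 - c) := by rw [hp]; abel
    have h2 : ‖(s / r) • (y1 - c)‖ ≤ s := by
      rw [norm_smul, Real.norm_of_nonneg hsr0]
      calc s / r * ‖y1 - c‖ ≤ s / r * r := mul_le_mul_of_nonneg_left hy1c hsr0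
        _ = s := by field_simp
    rw [h1]
    have := norm_sub_le (y1 - x0) ((s / r) • (y1 - c))
    linarith
  have hpsub : closedBall p s ⊆ closedBall c r :=
    closedBall_subset_closedBall' (by rw [dist_eq_norm]; linarith)
  set e := r1⁻¹ • a with he
  have hen : ‖e‖ = 1 := by
    rw [he, norm_smul, han, Real.norm_of_nonneg (by positivity), inv_mul_cancel₀ hr1.ne']
  have hae : a = r1 • e := by rw [he, smul_smul, mul_inv_cancel₀ hr1.ne', one_smul]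
  have hconn : IsPreconnected ((fun τ : ℝ => p + τ • e) '' Icc 0 (s + ε)) :=
    isPreconnected_Icc.image _ (by fun_prop)
  obtain ⟨q, ⟨τ, hτ, rfl⟩, hq⟩ : ∃ q ∈ (fun τ : ℝ => p + τ • e) '' Icc 0 (s + ε),
      q ∉ ⋃₀ nb 𝒞 {closedBall c r} ∪ ⋃₀ nb 𝒞 𝓕 := by
    by_contra hcon
    push Not at hcon
    obtain ⟨z, _, ⟨D, hD, hzD⟩, ⟨D', hD', hzD'⟩⟩ := isPreconnected_closed_iff.1 hconn _ _
      (h.closed_sUnion (h.nb_finite (finite_singleton _) (singleton_subset_iff.2 hW)) (nb_sub _))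
      (h.closed_sUnion hG (nb_sub _)) hcon
      ⟨p, ⟨0, ⟨le_rfl, by positivity⟩, by simp⟩, closedBall c r,
        h.sub_nb (singleton_subset_iff.2 hW) rfl, hpsub (mem_closedBall_self hs.le)⟩
      ⟨p + (s + ε) • e, ⟨s + ε, ⟨by positivity, le_rfl⟩, rfl⟩, closedBall c1 r1,
        h.sub_nb hF' hB1, by
          rw [mem_closedBall, dist_eq_norm]
          have h1 : p + (s + ε) • e - c1 = (p - x0) - (r1 - (s + ε)) • e := by
            rw [sub_smul, ← hae, ha]; abel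
          have h2 := norm_sub_le (p - x0) ((r1 - (s + ε)) • e)
          rw [norm_smul, hen, Real.norm_of_nonneg (by linarith)] at h2
          rw [h1]
          linarith⟩
    obtain ⟨hD1, _, rfl, w, hw1, hw2⟩ := hD
    exact hWG ⟨hW, D, ⟨hD1, D', hD', z, hzD', hzD⟩, w, hw2, hw1⟩
  simp only at hq
  obtain ⟨W', hW', hqW⟩ := h.cover (p + τ • e)
  obtain ⟨c', r', hr', rfl⟩ := h.ball W' hW'
  have hn1 : closedBall c' r' ∉ nb 𝒞 {closedBall c r} := fun h1 => hq (Or.inl ⟨_, h1, hqW⟩)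
  have hn2 : closedBall c' r' ∉ nb 𝒞 𝓕 := fun h1 => hq (Or.inr ⟨_, h1, hqW⟩)
  have hqx : ‖p + τ • e - x0‖ ≤ 4 * s := by
    have h1 : p + τ • e - x0 = (p - x0) + τ • e := by abel
    have h2 := norm_add_le (p - x0) (τ • e)
    rw [norm_smul, hen, Real.norm_of_nonneg hτ.1] at h2
    rw [h1]
    linarith [hτ.2]
  have hr'big : R / 4 ≤ r' := hbig c' r' hW' hn2 _ hqW (by linarith)
  have hd1 : s + r' < ‖p - c'‖ := by
    rw [← dist_eq_norm, ← disjoint_closedBall_closedBall_iff hs.le hr'.le]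
    refine Disjoint.mono_left hpsub ?_
    by_contra h1
    exact hn1 ⟨hW', _, rfl, not_disjoint_iff_nonempty_inter.1 h1⟩
  have hd2 : r1 + r' < ‖c1 - c'‖ := by
    rw [← dist_eq_norm, ← disjoint_closedBall_closedBall_iff hr1.le hr'.le]
    by_contra h1
    exact hn2 ⟨hW', _, hB1, not_disjoint_iff_nonempty_inter.1 h1⟩
  set m := p + τ • e - c' with hm
  have hmn : ‖m‖ ≤ r' := by rwa [mem_closedBall, dist_eq_norm] at hqW
  have hd1' : s + r' < ‖τ • e - m‖ := by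
    have : τ • e - m = -(p - c') := by rw [hm]; abel
    rwa [this, norm_neg]
  have hτs : s < τ := by
    have h2 := norm_sub_le (τ • e) m
    rw [norm_smul, hen, Real.norm_of_nonneg hτ.1] at h2
    linarith
  have hτ0 : 0 < τ := hs.trans hτs
  have hd2' : r1 + r' - 4 * s < ‖a + m‖ := by
    have h1 : c1 - c' = (a + m) - (p + τ • e - x0) := by rw [ha, hm]; abel
    have h2 := norm_sub_le (a + m) (p + τ • e - x0)
    rw [← h1] at h2
    linarith
  set t := δ / r' with ht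
  have ht0 : 0 ≤ t := by positivity
  have ht1 : t ≤ 1 := (div_le_one hr').2 (by linarith)
  have htr : t * r' = δ := by rw [ht]; field_simp
  have htm : ‖t • m‖ ≤ δ := by
    rw [norm_smul, Real.norm_of_nonneg ht0, ← htr]
    exact mul_le_mul_of_nonneg_left hmn ht0
  have h1 : r1 + δ - 4 * s < ‖a + t • m‖ := by
    have h2 : a + m = (a + t • m) + (1 - t) • m := by rw [sub_smul, one_smul]; abel
    have h3 := norm_add_le (a + t • m) ((1 - t) • m)
    rw [← h2, norm_smul, Real.norm_of_nonneg (by linarith)] at h3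
    have h4 := mul_le_mul_of_nonneg_left hmn (show 0 ≤ 1 - t by linarith)
    nlinarith
  set l := r1 / τ with hl
  have hl1 : 1 ≤ l := (one_le_div hτ0).2 (by linarith [hτ.2])
  have hlτ : l * τ = r1 := by rw [hl]; field_simp
  have h2 : l * s + δ ≤ ‖a - t • m‖ := by
    have h2 : l • (τ • e - m) = (a - t • m) - (l - t) • m := by
      rw [smul_sub, smul_smul, hlτ, ← hae, sub_smul]; abel
    have h3 := norm_sub_le (a - t • m) ((l - t) • m)
    rw [← h2, norm_smul, norm_smul, Real.norm_of_nonneg (by linarith),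
      Real.norm_of_nonneg (by linarith)] at h3
    have h4 := mul_le_mul_of_nonneg_left hmn (show 0 ≤ l - t by linarith)
    have h5 := mul_le_mul_of_nonneg_left hd1'.le (show 0 ≤ l by linarith)
    nlinarith
  have h3 : r1 - (1 - θ) * δ ≤ l * s := by
    have h4 : l * (τ - s) ≤ (1 - θ) * δ := by
      have h5 : l * (τ - s) * s ≤ (1 - θ) * δ * s := by
        have h6 : l * s ≤ r1 := by nlinarith
        have h7 : τ - s ≤ ε := by linarith [hτ.2]
        calc l * (τ - s) * s = (l * s) * (τ - s) := by ring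
          _ ≤ r1 * ε := mul_le_mul h6 h7 (by linarith) hr1.le
          _ ≤ _ := hε2
      exact le_of_mul_le_mul_right h5 hs
    nlinarith
  have h4 := hQ (t • m) (htm.trans hδ1)
  have h5 : θ0 * ‖t • m‖ ≤ θ * δ :=
    (mul_le_mul_of_nonneg_right (le_max_left _ _) (norm_nonneg _)).trans
      (mul_le_mul_of_nonneg_left htm hθ')
  rw [han] at h4
  nlinarith

end Pool.Agent.H750Z.SF
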