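import Pool.Agent.H750Z.SF.Basic

set_option autoImplicit false

namespace Pool.Agent.H750Z.SF

open Metric Set

variable {X : Type*} [NormedAddCommGroup X] [NormedSpace ℝ X]

/-- approximate differentiability of the norm at `a` at scale `δ` -/
def QQ (a : X) (δ : ℝ) : Prop :=
  ∃ f : X →L[ℝ] ℝ, ∀ h : X, ‖h‖ ≤ δ → ‖a + h‖ ≤ ‖a‖ + f h + δ / 8

theorem bound_of_diff {a : X} (ha : DifferentiableAt ℝ (fun y : X => ‖y‖) a) :
    ∃ f : X →L[ℝ] ℝ, ∃ δ0 > 0, ∀ h : X, ‖h‖ ≤ δ0 → ‖a + h‖ ≤ ‖a‖ + f h + ‖h‖ / 8 := by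
  have h1 := hasFDerivAt_iff_isLittleO_nhds_zero.1 ha.hasFDerivAt
  have h2 := h1.def (show (0 : ℝ) < 1 / 8 by norm_num)
  obtain ⟨ε, hε, h3⟩ := Metric.eventually_nhds_iff.1 h2
  refine ⟨fderiv ℝ (fun y : X => ‖y‖) a, ε / 2, by positivity, fun h hh => ?_⟩
  have h4 := h3 (y := h) (by rw [dist_zero_right]; linarith)
  have h5 := (le_abs_self _).trans h4
  linarith

theorem nonRough_of_diff {a : X} (ha : DifferentiableAt ℝ (fun y : X => ‖y‖) a) : NonRough a := by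
  obtain ⟨f, δ0, hδ0, h1⟩ := bound_of_diff ha
  refine ⟨1 / 8, δ0, by norm_num, hδ0, fun h hh => ?_⟩
  have h2 := h1 h hh
  have h3 := h1 (-h) (by rwa [norm_neg])
  rw [map_neg, norm_neg, ← sub_eq_add_neg] at h3
  linarith

theorem QQ_of_diff {a : X} (ha : DifferentiableAt ℝ (fun y : X => ‖y‖) a) :
    ∃ n : ℕ, QQ a (1 / ((n : ℝ) + 1)) := by
  obtain ⟨f, δ0, hδ0, h1⟩ := bound_of_diff ha
  obtain ⟨n, hn⟩ := exists_nat_one_div_lt hδ0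
  refine ⟨n, f, fun h hh => ?_⟩
  have h2 := h1 h (hh.trans hn.le)
  linarith

theorem three {a b d : X} {δ ε : ℝ} (hδ : 0 < δ) (hε : 3 * ε ≤ δ) (ha0 : a ≠ 0) (ha : QQ a δ)
    (hb : QQ b δ) (hd : QQ d δ) (hab : ‖a‖ + ‖b‖ - ε < ‖a - b‖) (had : ‖a‖ + ‖d‖ - ε < ‖a - d‖)
    (hbd : ‖b‖ + ‖d‖ - ε < ‖b - d‖) : False := by
  obtain ⟨fa, ha⟩ := ha
  obtain ⟨fb, hb⟩ := hb
  obtain ⟨fd, hd⟩ := hd
  have han : 0 < ‖a‖ := norm_pos_iff.2 ha0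
  set h := (δ / ‖a‖) • a with hh
  have hn : ‖h‖ = δ := by
    rw [hh, norm_smul, Real.norm_of_nonneg (by positivity)]; field_simp
  have h1 : ‖a + h‖ = ‖a‖ + δ := by
    have : a + h = (1 + δ / ‖a‖) • a := by rw [hh, add_smul, one_smul]
    rw [this, norm_smul, Real.norm_of_nonneg (by positivity)]; field_simp
  have h2 := ha h hn.le
  have h3 := ha (-h) (by rw [norm_neg, hn])
  have h4 := hb (-h) (by rw [norm_neg, hn])
  have h5 := hd (-h) (by rw [norm_neg, hn])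
  have h6 := hb h hn.le
  have h7 := hd h hn.le
  have h8 := norm_sub_le (a + -h) (b + -h)
  have h9 := norm_sub_le (a + -h) (d + -h)
  have h10 := norm_sub_le (b + h) (d + h)
  rw [add_sub_add_right_eq_sub] at h8 h9 h10
  rw [map_neg] at h3 h4 h5
  linarith

variable {𝒞 : Set (Set X)}

theorem baire_sing [CompleteSpace X] (hne : (sing 𝒞).Nonempty) (A : ℕ → Set X)
    (hA : sing 𝒞 ⊆ ⋃ n, A n) : ∃ n, ∃ x0 ∈ sing 𝒞, ∃ R > 0,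
      sing 𝒞 ∩ Metric.ball x0 R ⊆ closure (A n) := by
  have := (sing_closed (𝒞 := 𝒞)).completeSpace_coe
  have := hne.to_subtype
  obtain ⟨n, ⟨x0, hx0⟩, h1⟩ := nonempty_interior_of_iUnion_of_closed
    (f := fun n => (Subtype.val ⁻¹' closure (A n) : Set (sing 𝒞)))
    (fun n => isClosed_closure.preimage continuous_subtype_val) (by
      refine eq_univ_of_forall fun x => ?_
      obtain ⟨n, hn⟩ := mem_iUnion.1 (hA x.2)
      exact mem_iUnion.2 ⟨n, subset_closure hn⟩)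
  obtain ⟨R, hR, h2⟩ := Metric.mem_nhds_iff.1 (mem_interior_iff_mem_nhds.1 h1)
  exact ⟨n, x0, hx0, R, hR, fun y hy => h2 (show (⟨y, hy.1⟩ : sing 𝒞) ∈ Metric.ball _ R from hy.2)⟩

theorem Cover.tame [CompleteSpace X] (h : Cover 𝒞) (hne : (sing 𝒞).Nonempty)
    (hdiff : ∀ x : X, x ≠ 0 → DifferentiableAt ℝ (fun y : X => ‖y‖) x) :
    ∃ x0 ∈ sing 𝒞, ∃ R > 0, ∃ 𝓕 : Set (Set X), 𝓕.Finite ∧ 𝓕 ⊆ 𝒞 ∧
      sing 𝒞 ∩ Metric.ball x0 R ⊆ ⋃₀ 𝓕 := by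
  let A : ℕ → Set X := fun n => {x | ∃ c r, 0 < r ∧ closedBall c r ∈ 𝒞 ∧ x ∈ closedBall c r ∧
    ‖c - x‖ = r ∧ QQ (c - x) (1 / ((n : ℝ) + 1))}
  obtain ⟨n, x0, hx0, R, hR, h1⟩ := baire_sing hne A (by
    intro x hx
    obtain ⟨B, hB, hxB⟩ := h.cover x
    obtain ⟨c, r, hr, rfl⟩ := h.ball B hB
    have h2 := h.sing_bd hx hB hxB
    obtain ⟨n, hn⟩ := QQ_of_diff (hdiff (c - x) (by rw [← norm_pos_iff, h2]; exact hr))
    exact mem_iUnion.2 ⟨n, c, r, hr, hB, hxB, h2, hn⟩)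
  set δ := 1 / ((n : ℝ) + 1) with hδdef
  have hδ : 0 < δ := by positivity
  set R' := min R (δ / 6)
  have hR' : 0 < R' := lt_min hR (by positivity)
  have hR1 : R' ≤ R := min_le_left _ _
  have hR2 : R' ≤ δ / 6 := min_le_right _ _
  have key : ∃ 𝓕 : Set (Set X), 𝓕.Finite ∧ 𝓕 ⊆ 𝒞 ∧ A n ∩ Metric.ball x0 R' ⊆ ⋃₀ 𝓕 := by
    by_contra hcon
    push Not at hcon
    have step : ∀ 𝓗 : Set (Set X), 𝓗.Finite → 𝓗 ⊆ 𝒞 → ∃ x c r, 0 < r ∧ closedBall c r ∈ 𝒞 ∧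
        x ∈ Metric.ball x0 R' ∧ ‖c - x‖ = r ∧ QQ (c - x) δ ∧
        ∀ c' r', 0 < r' → closedBall c' r' ∈ 𝓗 → r' + r < ‖c' - c‖ := by
      intro 𝓗 h2 h3
      obtain ⟨x, ⟨⟨c, r, hr, hB, hxB, h4, h5⟩, h6⟩, h7⟩ :=
        not_subset.1 (hcon _ (h.nb_finite h2 h3) (nb_sub _))
      refine ⟨x, c, r, hr, hB, h6, h4, h5, fun c' r' hr' h8 => ?_⟩
      rw [← dist_eq_norm, ← disjoint_closedBall_closedBall_iff hr'.le hr.le]
      by_contra h9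
      exact h7 ⟨_, ⟨hB, _, h8, not_disjoint_iff_nonempty_inter.1 h9⟩, hxB⟩
    obtain ⟨x, c1, r1, hr1, hB1, hx, hn1, hq1, -⟩ := step ∅ finite_empty (empty_subset _)
    obtain ⟨z, c2, r2, hr2, hB2, hz, hn2, hq2, h12⟩ := step {closedBall c1 r1}
      (finite_singleton _) (singleton_subset_iff.2 hB1)
    obtain ⟨w, c3, r3, hr3, hB3, hw, hn3, hq3, h3⟩ := step {closedBall c1 r1, closedBall c2 r2}
      (toFinite _) (insert_subset hB1 (singleton_subset_iff.2 hB2))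
    have pair : ∀ (x z c1 c2 : X) (r1 r2 : ℝ), x ∈ Metric.ball x0 R' → z ∈ Metric.ball x0 R' →
        ‖c1 - x‖ = r1 → ‖c2 - z‖ = r2 → r1 + r2 < ‖c1 - c2‖ →
        ‖c1 - x‖ + ‖c2 - z‖ - δ / 3 < ‖(c1 - x) - (c2 - z)‖ := by
      intro x z c1 c2 r1 r2 hx hz h1 h2 h3
      rw [mem_ball] at hx hz
      have h4 := dist_triangle_right x z x0
      rw [dist_eq_norm x z] at h4
      have h5 := norm_add_le ((c1 - x) - (c2 - z)) (x - z)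
      rw [show (c1 - x) - (c2 - z) + (x - z) = c1 - c2 by abel] at h5
      linarith
    exact three hδ (ε := δ / 3) (by linarith) (by rw [← norm_pos_iff, hn1]; exact hr1) hq1 hq2 hq3
      (pair _ _ _ _ _ _ hx hz hn1 hn2 (h12 c1 r1 hr1 rfl))
      (pair _ _ _ _ _ _ hx hw hn1 hn3 (h3 c1 r1 hr1 (Or.inl rfl)))
      (pair _ _ _ _ _ _ hz hw hn2 hn3 (h3 c2 r2 hr2 (Or.inr rfl)))
  obtain ⟨𝓕, h2, h3, h4⟩ := key
  refine ⟨x0, hx0, R', hR', 𝓕, h2, h3, fun y hy => ?_⟩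
  have h5 : y ∈ closure (A n) := h1 ⟨hy.1, ball_subset_ball hR1 hy.2⟩
  have h6 : y ∈ closure (A n ∩ Metric.ball x0 R') := isOpen_ball.closure_inter ⟨h5, hy.2⟩
  exact (h.closed_sUnion h2 h3).closure_subset_iff.2 h4 h6

theorem frechet [CompleteSpace X] (hX : ¬ FiniteDimensional ℝ X)
    (hdiff : ∀ x : X, x ≠ 0 → DifferentiableAt ℝ (fun y : X => ‖y‖) x) (h : Cover 𝒞) : False := by
  obtain ⟨𝒞, h, hmin⟩ := h.exists_minimal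
  have hmin' : ∀ B ∈ 𝒞, ∃ z ∈ B, z ∈ sing 𝒞 := fun B hB => by
    obtain ⟨y, hy, hy'⟩ := hmin B hB
    exact h.exists_sing hX hB hy hy'
  obtain ⟨B0, hB0, -⟩ := h.cover 0
  obtain ⟨z0, -, hz0⟩ := hmin' B0 hB0
  obtain ⟨x0, hx0, R, hR, 𝓕, h1, h2, h3⟩ := h.tame ⟨z0, hz0⟩ hdiff
  obtain ⟨B, hB, hxB⟩ := h3 ⟨hx0, mem_ball_self hR⟩
  obtain ⟨c, r, hr, rfl⟩ := h.ball B (h2 hB)
  refine h.final hmin' hx0 hR h1 h2 h3 hr hB hxB (nonRough_of_diff (hdiff _ ?_))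
  rw [← norm_pos_iff, h.sing_bd hx0 (h2 hB) hxB]
  exact hr

end Pool.Agent.H750Z.SF
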